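import Mathlib

/-!
Evaluation of `∑_I 2^|I|` and `∑_I |I| 2^|I|` over the independent sets `I` of a graph on `Fin n`
given by bit masks, by a recursion over the vertices.
-/

set_option autoImplicit false
open Classical

namespace Pool.Agent.Run7.h553.OCC

open Finset

/-- `(∑ 2^|I|, ∑ |I| 2^|I|)` over the independent sets inside the mask `a`, among the vertices `< k`;
`M k` is the mask of the non-neighbours of `k` -/
def T (M : ℕ → ℕ) : ℕ → ℕ → ℕ × ℕ
  | 0, _ => (1, 0)
  | k + 1, a =>
    match a.testBit k with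
    | true => ((T M k a).1 + 2 * (T M k (a &&& M k)).1,
        (T M k a).2 + (2 * (T M k (a &&& M k)).2 + 2 * (T M k (a &&& M k)).1))
    | false => T M k a

variable {n : ℕ}

/-- vertices below `k` -/
def Bk (n k : ℕ) : Finset (Fin n) := univ.filter (fun i => i.val < k)

theorem Bk_succ {k : ℕ} (hk : k < n) : Bk n (k + 1) = insert ⟨k, hk⟩ (Bk n k) := by
  ext i
  simp only [Bk, mem_filter, mem_univ, true_and, mem_insert, Fin.ext_iff]
  omega

theorem notMem_Bk {k : ℕ} (hk : k < n) : (⟨k, hk⟩ : Fin n) ∉ Bk n k := by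
  simp [Bk]

/-- the condition -/
def Cn (G : SimpleGraph (Fin n)) (a : ℕ) (I : Finset (Fin n)) : Prop :=
  G.IsIndepSet (I : Set (Fin n)) ∧ ∀ i ∈ I, a.testBit i.val = true

theorem Cn_insert (G : SimpleGraph (Fin n)) (M : ℕ → ℕ)
    (hM : ∀ i j : Fin n, j < i → ((M i).testBit j = true ↔ ¬ G.Adj i j))
    {k : ℕ} (hk : k < n) (a : ℕ) {I : Finset (Fin n)} (hI : I ⊆ Bk n k) :
    Cn G a (insert ⟨k, hk⟩ I) ↔ a.testBit k = true ∧ Cn G (a &&& M k) I := by
  have hn : (⟨k, hk⟩ : Fin n) ∉ (I : Set (Fin n)) := fun h => notMem_Bk hk (hI h)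
  unfold Cn SimpleGraph.IsIndepSet
  rw [coe_insert, Set.pairwise_insert_of_notMem hn]
  constructor
  · rintro ⟨⟨h1, h2⟩, h3⟩
    refine ⟨h3 _ (mem_insert_self _ _), h1, fun i hi => ?_⟩
    rw [Nat.testBit_and, h3 i (mem_insert_of_mem hi), Bool.true_and]
    have h4 : i < (⟨k, hk⟩ : Fin n) := by
      have := hI hi
      simp only [Bk, mem_filter, mem_univ, true_and] at this
      exact this
    exact (hM _ _ h4).2 (h2 i hi).1
  · rintro ⟨h1, h2, h3⟩
    refine ⟨⟨h2, fun i hi => ?_⟩, fun i hi => ?_⟩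
    · have h4 : i < (⟨k, hk⟩ : Fin n) := by
        have := hI hi
        simp only [Bk, mem_filter, mem_univ, true_and] at this
        exact this
      have h5 := h3 i hi
      rw [Nat.testBit_and, Bool.and_eq_true] at h5
      exact ⟨(hM _ _ h4).1 h5.2, fun h => (hM _ _ h4).1 h5.2 h.symm⟩
    · rcases mem_insert.1 hi with h | h
      · subst h; exact h1
      · have h5 := h3 i h
        rw [Nat.testBit_and, Bool.and_eq_true] at h5
        exact h5.1

theorem T_spec (G : SimpleGraph (Fin n)) (M : ℕ → ℕ)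
    (hM : ∀ i j : Fin n, j < i → ((M i).testBit j = true ↔ ¬ G.Adj i j)) :
    ∀ k, k ≤ n → ∀ a : ℕ,
      (∑ I ∈ (Bk n k).powerset, if Cn G a I then 2 ^ I.card else 0) = (T M k a).1 ∧
      (∑ I ∈ (Bk n k).powerset, if Cn G a I then I.card * 2 ^ I.card else 0) = (T M k a).2 := by
  intro k
  induction k with
  | zero =>
    intro _ a
    have h0 : Bk n 0 = ∅ := by simp [Bk]
    have h1 : Cn G a ∅ := ⟨by simp [SimpleGraph.IsIndepSet], by simp⟩
    simp [h0, T, h1]
  | succ k ih =>
    intro hk a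
    have hk' : k < n := hk
    rw [Bk_succ hk', sum_powerset_insert (notMem_Bk hk'), sum_powerset_insert (notMem_Bk hk')]
    have e1 : ∀ I ∈ (Bk n k).powerset, (insert (⟨k, hk'⟩ : Fin n) I).card = I.card + 1 := by
      intro I hI
      exact card_insert_of_notMem (fun h => notMem_Bk hk' (mem_powerset.1 hI h))
    obtain ⟨i1, i2⟩ := ih hk'.le a
    obtain ⟨j1, j2⟩ := ih hk'.le (a &&& M k)
    rw [i1, i2]
    by_cases hb : a.testBit k = true
    · have f1 : (∑ I ∈ (Bk n k).powerset, if Cn G a (insert ⟨k, hk'⟩ I) then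
          2 ^ (insert (⟨k, hk'⟩ : Fin n) I).card else 0) = 2 * (T M k (a &&& M k)).1 := by
        rw [← j1, mul_sum]
        refine sum_congr rfl (fun I hI => ?_)
        rw [e1 I hI]
        have := Cn_insert G M hM hk' a (mem_powerset.1 hI)
        by_cases hc : Cn G (a &&& M k) I
        · rw [if_pos (this.2 ⟨hb, hc⟩), if_pos hc]; ring
        · rw [if_neg (fun h => hc (this.1 h).2), if_neg hc, mul_zero]
      have f2 : (∑ I ∈ (Bk n k).powerset, if Cn G a (insert ⟨k, hk'⟩ I) then
          (insert (⟨k, hk'⟩ : Fin n) I).card * 2 ^ (insert (⟨k, hk'⟩ : Fin n) I).card else 0) =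
          2 * (T M k (a &&& M k)).2 + 2 * (T M k (a &&& M k)).1 := by
        rw [← j1, ← j2, mul_sum, mul_sum, ← sum_add_distrib]
        refine sum_congr rfl (fun I hI => ?_)
        rw [e1 I hI]
        have := Cn_insert G M hM hk' a (mem_powerset.1 hI)
        by_cases hc : Cn G (a &&& M k) I
        · rw [if_pos (this.2 ⟨hb, hc⟩), if_pos hc, if_pos hc]; ring
        · rw [if_neg (fun h => hc (this.1 h).2), if_neg hc, if_neg hc, mul_zero, add_zero]
      rw [f1, f2]
      simp only [T, hb, and_self]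
    · have hb' : a.testBit k = false := by simpa using hb
      have f1 : (∑ I ∈ (Bk n k).powerset, if Cn G a (insert ⟨k, hk'⟩ I) then
          2 ^ (insert (⟨k, hk'⟩ : Fin n) I).card else 0) = 0 := by
        refine sum_eq_zero (fun I hI => ?_)
        have := Cn_insert G M hM hk' a (mem_powerset.1 hI)
        rw [if_neg (fun h => hb (this.1 h).1)]
      have f2 : (∑ I ∈ (Bk n k).powerset, if Cn G a (insert ⟨k, hk'⟩ I) then
          (insert (⟨k, hk'⟩ : Fin n) I).card * 2 ^ (insert (⟨k, hk'⟩ : Fin n) I).card else 0) = 0 := by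
        refine sum_eq_zero (fun I hI => ?_)
        have := Cn_insert G M hM hk' a (mem_powerset.1 hI)
        rw [if_neg (fun h => hb (this.1 h).1)]
      rw [f1, f2]
      simp only [T, hb', add_zero, and_self]

/-- the total over all independent sets -/
theorem total (G : SimpleGraph (Fin n)) (M : ℕ → ℕ)
    (hM : ∀ i j : Fin n, j < i → ((M i).testBit j = true ↔ ¬ G.Adj i j)) :
    (∑ I : Finset (Fin n), if G.IsIndepSet (I : Set (Fin n)) then 2 ^ I.card else 0) =
      (T M n (2 ^ n - 1)).1 ∧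
    (∑ I : Finset (Fin n), if G.IsIndepSet (I : Set (Fin n)) then I.card * 2 ^ I.card else 0) =
      (T M n (2 ^ n - 1)).2 := by
  obtain ⟨h1, h2⟩ := T_spec G M hM n le_rfl (2 ^ n - 1)
  have hB : (Bk n n).powerset = (univ : Finset (Finset (Fin n))) := by
    have : Bk n n = univ := by ext i; simp [Bk]
    rw [this, powerset_univ]
  have hC : ∀ I : Finset (Fin n), Cn G (2 ^ n - 1) I ↔ G.IsIndepSet (I : Set (Fin n)) := by
    intro I
    unfold Cn
    refine ⟨fun h => h.1, fun h => ⟨h, fun i _ => ?_⟩⟩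
    rw [Nat.testBit_two_pow_sub_one]
    simp
  rw [hB] at h1 h2
  simp only [hC] at h1 h2
  exact ⟨h1, h2⟩

/-- real version, for an arbitrary vertex type -/
theorem total_real {V : Type} [Fintype V] (G : SimpleGraph V) (e : Fin n ≃ V) (M : ℕ → ℕ)
    (hM : ∀ i j : Fin n, j < i → ((M i).testBit j = true ↔ ¬ G.Adj (e i) (e j))) :
    (∑ I : Finset V, if G.IsIndepSet (I : Set V) then (2 : ℝ) ^ I.card else 0) =
      ((T M n (2 ^ n - 1)).1 : ℝ) ∧
    (∑ I : Finset V, if G.IsIndepSet (I : Set V) then (I.card : ℝ) * (2 : ℝ) ^ I.card else 0) =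
      ((T M n (2 ^ n - 1)).2 : ℝ) := by
  obtain ⟨h1, h2⟩ := total (G.comap e) M hM
  have key : ∀ I : Finset (Fin n), G.IsIndepSet ((e.finsetCongr I : Finset V) : Set V) ↔
      (G.comap e).IsIndepSet (I : Set (Fin n)) := by
    intro I
    unfold SimpleGraph.IsIndepSet
    rw [Equiv.finsetCongr_apply, coe_map, Set.InjOn.pairwise_image (e.toEmbedding.injective.injOn)]
    rfl
  have hc : ∀ I : Finset (Fin n), (e.finsetCongr I).card = I.card := by
    intro I; rw [Equiv.finsetCongr_apply, card_map]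
  constructor
  · rw [← h1, ← (e.finsetCongr).sum_comp]
    push_cast
    refine sum_congr rfl (fun I _ => ?_)
    rw [hc]
    by_cases h : (G.comap e).IsIndepSet (I : Set (Fin n))
    · rw [if_pos ((key I).2 h), if_pos h]
    · rw [if_neg (fun h' => h ((key I).1 h')), if_neg h]
  · rw [← h2, ← (e.finsetCongr).sum_comp]
    push_cast
    refine sum_congr rfl (fun I _ => ?_)
    rw [hc]
    by_cases h : (G.comap e).IsIndepSet (I : Set (Fin n))
    · rw [if_pos ((key I).2 h), if_pos h]
    · rw [if_neg (fun h' => h ((key I).1 h')), if_neg h]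

/-- girth at least five from: no triangles, no two vertices with two common neighbours -/
theorem five_le_egirth {V : Type} (H : SimpleGraph V)
    (h3 : ∀ a b c, H.Adj a b → H.Adj b c → H.Adj c a → False)
    (h4 : ∀ a b c d, a ≠ c → b ≠ d → H.Adj a b → H.Adj b c → H.Adj c d → H.Adj d a → False) :
    (5 : ℕ∞) ≤ H.egirth := by
  rw [SimpleGraph.le_egirth]
  intro a w hw
  have h5 := hw.three_le_length
  by_contra hc
  have h6 : w.length < 5 := by
    have : ((w.length : ℕ) : ℕ∞) < ((5 : ℕ) : ℕ∞) := not_le.1 hc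
    exact_mod_cast this
  have h7 : w.length = 3 ∨ w.length = 4 := by omega
  rcases h7 with h | h
  · match w, h with
    | .cons e1 (.cons e2 (.cons e3 .nil)), _ => exact h3 _ _ _ e1 e2 e3
  · match w, h, hw with
    | .cons e1 (.cons e2 (.cons e3 (.cons e4 .nil))), _, hw =>
      have hn := hw.support_nodup
      simp only [SimpleGraph.Walk.support_cons, SimpleGraph.Walk.support_nil, List.tail_cons,
        List.nodup_cons, List.mem_cons, List.not_mem_nil, or_false, not_or] at hn
      exact h4 _ _ _ _ (fun h => hn.2.1.2 h.symm) hn.1.2.1 e1 e2 e3 e4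

end Pool.Agent.Run7.h553.OCC
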