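import Pool.Agent.Run7.h553.OCC.Core

/-!
The three graphs: the counterexample on 20 vertices, the Robertson graph, and the circulant on `ZMod 13`.
-/

set_option autoImplicit false

namespace Pool.Agent.Run7.h553.OCC

open Finset

/-- adjacency masks of the counterexample -/
def A20 (i : ℕ) : ℕ :=
  [42112, 786472, 82000, 66306, 37124, 132610, 532996, 526593, 131224, 32872, 69665, 336000,
    541712, 133185, 397316, 262673, 3084, 24864, 51202, 4290].getD i 0

/-- masks of non-neighbours -/
def M20 (i : ℕ) : ℕ := (2 ^ 20 - 1) ^^^ A20 i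

/-- the counterexample -/
def G20 : SimpleGraph (Fin 20) where
  Adj i j := (A20 i).testBit j = true
  symm := ⟨by decide +kernel⟩
  loopless := ⟨by decide +kernel⟩

instance : DecidableRel G20.Adj := fun i j => inferInstanceAs (Decidable ((A20 i).testBit j = true))

theorem G20_mask : ∀ i j : Fin 20, j < i → ((M20 i).testBit j = true ↔ ¬ G20.Adj i j) := by
  decide +kernel

theorem G20_T : T M20 20 (2 ^ 20 - 1) = (72225, 359800) := by decide +kernel

theorem G20_deg : ∀ i : Fin 20, (univ.filter (fun j : Fin 20 => G20.Adj i j)).card = 4 := by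
  decide +kernel

theorem G20_tri : ∀ i j k : Fin 20, G20.Adj i j → G20.Adj j k → ¬ G20.Adj k i := by
  decide +kernel

/-- adjacency masks of the Robertson graph -/
def A19 (i : ℕ) : ℕ :=
  [58368, 70176, 282880, 1920, 76032, 33090, 139424, 18504, 60, 270346, 135177, 37008, 3078, 593,
    65669, 264225, 147474, 328768, 164356].getD i 0

/-- the Robertson graph -/
def G19 : SimpleGraph (Fin 19) where
  Adj i j := (A19 i).testBit j = true
  symm := ⟨by decide +kernel⟩
  loopless := ⟨by decide +kernel⟩

instance : DecidableRel G19.Adj := fun i j => inferInstanceAs (Decidable ((A19 i).testBit j = true))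

theorem G19_deg : ∀ i : Fin 19, (univ.filter (fun j : Fin 19 => G19.Adj i j)).card = 4 := by
  decide +kernel

theorem G19_tri : ∀ i j k : Fin 19, G19.Adj i j → G19.Adj j k → ¬ G19.Adj k i := by
  decide +kernel

theorem G19_sq : ∀ i j : Fin 19, i ≠ j →
    (univ.filter (fun k : Fin 19 => G19.Adj i k ∧ G19.Adj j k)).card ≤ 1 := by
  decide +kernel

theorem G19_girth : (5 : ℕ∞) ≤ G19.egirth := by
  refine five_le_egirth G19 (fun a b c h1 h2 h3 => G19_tri a b c h1 h2 h3) ?_
  intro a b c d hac hbd h1 h2 h3 h4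
  have h := Finset.card_le_one.1 (G19_sq a c hac) b
    (by simp only [mem_filter, mem_univ, true_and]; exact ⟨h1, h2.symm⟩) d
    (by simp only [mem_filter, mem_univ, true_and]; exact ⟨h4.symm, h3⟩)
  exact hbd h

/-- adjacency masks of the circulant -/
def A13 (i : ℕ) : ℕ :=
  [4386, 581, 1162, 2324, 4648, 1105, 2210, 4420, 649, 1298, 2596, 5192, 2193].getD i 0

/-- masks of non-neighbours -/
def M13 (i : ℕ) : ℕ := (2 ^ 13 - 1) ^^^ A13 i

/-- the identification of `Fin 13` and `ZMod 13` -/
def e13 : Fin 13 ≃ ZMod 13 := Equiv.refl _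

theorem G13_mask : ∀ i j : Fin 13, j < i → ((M13 i).testBit j = true ↔
    ¬ (SimpleGraph.fromRel (fun x y : ZMod 13 => x - y = 1 ∨ x - y = 5)).Adj (e13 i) (e13 j)) := by
  simp only [SimpleGraph.fromRel_adj]
  decide +kernel

theorem G13_T : T M13 13 (2 ^ 13 - 1) = (1483, 4810) := by decide +kernel

end Pool.Agent.Run7.h553.OCC
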